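import Pool.Agent.H74.G.R_seed8.Y504.CO.Stm

/-!
Eigenvalues of modulus one and bounded solutions (project CO of helper504; proof by helper38).
-/

set_option autoImplicit false

open Filter Set Metric

namespace Pool.Agent.Y38.CO.EIG

open Pool.Agent.H718R2.G Pool.Agent.Y504.CO

/-- A complex root of the characteristic polynomial gives a real and an imaginary part of an
eigenvector. -/
lemma eig_of_root {E : Type} [AddCommGroup E] [Module ℝ E] [FiniteDimensional ℝ E]
    (f : E →ₗ[ℝ] E) (μ : ℂ) (h : ((LinearMap.charpoly f).map (algebraMap ℝ ℂ)).IsRoot μ) :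
    ∃ u w : E, (u ≠ 0 ∨ w ≠ 0) ∧ f u = μ.re • u - μ.im • w ∧ f w = μ.im • u + μ.re • w := by
  classical
  set b := Module.finBasis ℝ E with hb
  set M := LinearMap.toMatrix b b f with hM
  set MC := M.map (algebraMap ℝ ℂ) with hMC
  have h1 : MC.charpoly.IsRoot μ := by
    rw [hMC, Matrix.charpoly_map, hM, LinearMap.charpoly_toMatrix]
    exact h
  have h2 : Module.End.HasEigenvalue (Matrix.toLin' MC) μ := by
    rw [Module.End.hasEigenvalue_iff_isRoot_charpoly, Matrix.charpoly_toLin']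
    exact h1
  obtain ⟨ξ, hξ⟩ := h2.exists_hasEigenvector
  have hξ0 : ξ ≠ 0 := hξ.2
  have hξ1 : MC.mulVec ξ = μ • ξ := by
    have := hξ.apply_eq_smul
    rwa [Matrix.toLin'_apply] at this
  have hre : ∀ i, M.mulVec (fun j => (ξ j).re) i = μ.re * (ξ i).re - μ.im * (ξ i).im := by
    intro i
    have h3 := congrArg Complex.re (congrFun hξ1 i)
    simp only [Matrix.mulVec, dotProduct, Complex.re_sum, Pi.smul_apply, smul_eq_mul,
      Complex.mul_re] at h3 ⊢
    rw [← h3]
    refine Finset.sum_congr rfl fun j _ => ?_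
    simp [hMC]
  have him : ∀ i, M.mulVec (fun j => (ξ j).im) i = μ.im * (ξ i).re + μ.re * (ξ i).im := by
    intro i
    have h3 := congrArg Complex.im (congrFun hξ1 i)
    simp only [Matrix.mulVec, dotProduct, Complex.im_sum, Pi.smul_apply, smul_eq_mul,
      Complex.mul_im] at h3 ⊢
    rw [add_comm, ← h3]
    refine Finset.sum_congr rfl fun j _ => ?_
    simp [hMC]
  refine ⟨b.equivFun.symm (fun j => (ξ j).re), b.equivFun.symm (fun j => (ξ j).im), ?_, ?_, ?_⟩
  · by_contra hcon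
    push Not at hcon
    apply hξ0
    have e1 : (fun j => (ξ j).re) = 0 := b.equivFun.symm.map_eq_zero_iff.1 hcon.1
    have e2 : (fun j => (ξ j).im) = 0 := b.equivFun.symm.map_eq_zero_iff.1 hcon.2
    funext j
    exact Complex.ext (congrFun e1 j) (congrFun e2 j)
  · apply b.equivFun.injective
    funext i
    have h4 := congrFun (LinearMap.toMatrix_mulVec_repr b b f
      (b.equivFun.symm fun j => (ξ j).re)) i
    have h5 : ⇑(b.repr (b.equivFun.symm fun j => (ξ j).re)) = fun j => (ξ j).re := by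
      rw [← Module.Basis.equivFun_apply, LinearEquiv.apply_symm_apply]
    rw [h5, hre] at h4
    rw [Module.Basis.equivFun_apply, ← h4, map_sub, map_smul, map_smul,
      LinearEquiv.apply_symm_apply, LinearEquiv.apply_symm_apply]
    rfl
  · apply b.equivFun.injective
    funext i
    have h4 := congrFun (LinearMap.toMatrix_mulVec_repr b b f
      (b.equivFun.symm fun j => (ξ j).im)) i
    have h5 : ⇑(b.repr (b.equivFun.symm fun j => (ξ j).im)) = fun j => (ξ j).im := by
      rw [← Module.Basis.equivFun_apply, LinearEquiv.apply_symm_apply]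
    rw [h5, him] at h4
    rw [Module.Basis.equivFun_apply, ← h4, map_add, map_smul, map_smul,
      LinearEquiv.apply_symm_apply, LinearEquiv.apply_symm_apply]
    rfl

/-- bounded entire solutions -/
def BS {E : Type} [NormedAddCommGroup E] [NormedSpace ℝ E] (A : E →L[ℝ] E) (v : ℤ → E) : Prop :=
  (∃ C : ℝ, ∀ i, ‖v i‖ ≤ C) ∧ ∀ i, v (i + 1) = A (v i)

section

variable {E : Type} [NormedAddCommGroup E] [NormedSpace ℝ E] {A : E →L[ℝ] E}

lemma BS.zero : BS A (fun _ => 0) := ⟨⟨0, fun _ => by simp⟩, fun _ => by simp⟩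

lemma BS.add {v w : ℤ → E} (hv : BS A v) (hw : BS A w) : BS A (fun i => v i + w i) := by
  obtain ⟨⟨C, hC⟩, h1⟩ := hv
  obtain ⟨⟨D, hD⟩, h2⟩ := hw
  exact ⟨⟨C + D, fun i => (norm_add_le _ _).trans (add_le_add (hC i) (hD i))⟩, fun i => by
    show v (i + 1) + w (i + 1) = A (v i + w i)
    rw [h1, h2, map_add]⟩

lemma BS.smul {v : ℤ → E} (c : ℝ) (hv : BS A v) : BS A (fun i => c • v i) := by
  obtain ⟨⟨C, hC⟩, h1⟩ := hv
  refine ⟨⟨|c| * C, fun i => ?_⟩, fun i => by
    show c • v (i + 1) = A (c • v i)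
    rw [h1, map_smul]⟩
  rw [norm_smul, Real.norm_eq_abs]
  exact mul_le_mul_of_nonneg_left (hC i) (abs_nonneg _)

lemma BS.shift {v : ℤ → E} (k : ℤ) (hv : BS A v) : BS A (fun i => v (i + k)) := by
  obtain ⟨⟨C, hC⟩, h1⟩ := hv
  refine ⟨⟨C, fun i => hC _⟩, fun i => ?_⟩
  show v (i + 1 + k) = A (v (i + k))
  rw [← h1, add_right_comm]

variable (A) in
/-- the values at `0` of the bounded solutions -/
def KK : Submodule ℝ E where
  carrier := {x | ∃ v : ℤ → E, BS A v ∧ v 0 = x}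
  add_mem' := by
    rintro x y ⟨v, hv, rfl⟩ ⟨w, hw, rfl⟩
    exact ⟨_, hv.add hw, rfl⟩
  zero_mem' := ⟨_, BS.zero, rfl⟩
  smul_mem' := by
    rintro c x ⟨v, hv, rfl⟩
    exact ⟨_, hv.smul c, rfl⟩

lemma BS.mem {v : ℤ → E} (hv : BS A v) (k : ℤ) : v k ∈ KK A :=
  ⟨_, hv.shift k, by simp⟩

lemma KK_maps : ∀ x ∈ KK A, (A : E →ₗ[ℝ] E) x ∈ KK A := by
  rintro x ⟨v, hv, rfl⟩
  have h := hv.mem 1
  have h1 := hv.2 0
  rw [zero_add] at h1
  rw [h1] at h
  exact h

variable [FiniteDimensional ℝ E]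

lemma KK_inj {x : E} (hx : x ∈ KK A) (h : A x = 0) : x = 0 := by
  have hs : Function.Surjective ((A : E →ₗ[ℝ] E).restrict KK_maps) := by
    rintro ⟨y, v, hv, rfl⟩
    refine ⟨⟨v (-1), hv.mem (-1)⟩, Subtype.ext ?_⟩
    show A (v (-1)) = v 0
    rw [← hv.2 (-1)]
    norm_num
  have hi := LinearMap.injective_iff_surjective.2 hs
  have h1 : ((A : E →ₗ[ℝ] E).restrict KK_maps) ⟨x, hx⟩ = 0 := Subtype.ext h
  have h2 := hi (h1.trans (map_zero _).symm)
  exact congrArg Subtype.val h2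

lemma BS.uniq {v : ℤ → E} (hv : BS A v) (h0 : v 0 = 0) : ∀ k, v k = 0 := by
  have hpos : ∀ m : ℕ, v (m : ℤ) = 0 := by
    intro m
    induction m with
    | zero => exact h0
    | succ m ih =>
      push_cast
      rw [hv.2, ih, map_zero]
  have hneg : ∀ m : ℕ, v (-(m : ℤ)) = 0 := by
    intro m
    induction m with
    | zero => simpa using h0
    | succ m ih =>
      refine KK_inj (hv.mem _) ?_
      rw [← hv.2, ← ih]
      congr 1
      push_cast
      ring
  intro k
  rcases le_total 0 k with hk | hk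
  · have := hpos k.toNat
    rwa [Int.toNat_of_nonneg hk] at this
  · have := hneg (-k).toNat
    rw [Int.toNat_of_nonneg (by omega), neg_neg] at this
    exact this

end

lemma norm_eq_one {E : Type} [NormedAddCommGroup E] [InnerProductSpace ℝ E] {a b : ℝ}
    {U W : ℤ → E} (hU : ∀ k, U (k + 1) = a • U k - b • W k)
    (hW : ∀ k, W (k + 1) = b • U k + a • W k) {C : ℝ} (hCU : ∀ k, ‖U k‖ ≤ C)
    (hCW : ∀ k, ‖W k‖ ≤ C) (h0 : U 0 ≠ 0 ∨ W 0 ≠ 0) : a ^ 2 + b ^ 2 = 1 := by
  set N : ℤ → ℝ := fun k => ‖U k‖ ^ 2 + ‖W k‖ ^ 2 with hN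
  set ρ := a ^ 2 + b ^ 2 with hρ
  have hstep : ∀ k, N (k + 1) = ρ * N k := by
    intro k
    simp only [hN, hU, hW]
    rw [norm_sub_sq_real, norm_add_sq_real, norm_smul, norm_smul, norm_smul, norm_smul,
      inner_smul_left, inner_smul_left, inner_smul_right, inner_smul_right]
    simp only [mul_pow, Real.norm_eq_abs, sq_abs, conj_trivial]
    ring
  have hC : ∀ k, N k ≤ 2 * C ^ 2 := by
    intro k
    have h1 := pow_le_pow_left₀ (norm_nonneg _) (hCU k) 2
    have h2 := pow_le_pow_left₀ (norm_nonneg _) (hCW k) 2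
    simp only [hN]
    linarith
  have hN0 : 0 < N 0 := by
    simp only [hN]
    rcases h0 with h | h
    · have := norm_pos_iff.2 h
      positivity
    · have := norm_pos_iff.2 h
      positivity
  have hρ0 : 0 ≤ ρ := by positivity
  have hpos : ∀ m : ℕ, N (m : ℤ) = ρ ^ m * N 0 := by
    intro m
    induction m with
    | zero => simp
    | succ m ih =>
      push_cast
      rw [hstep, ih, pow_succ]
      ring
  have hneg : ∀ m : ℕ, N 0 = ρ ^ m * N (-(m : ℤ)) := by
    intro m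
    induction m with
    | zero => simp
    | succ m ih =>
      rw [ih, pow_succ, mul_assoc, ← hstep]
      congr 2
      push_cast
      ring
  refine le_antisymm ?_ ?_
  · by_contra hcon
    rw [not_le] at hcon
    obtain ⟨m, hm⟩ := pow_unbounded_of_one_lt (2 * C ^ 2 / N 0) hcon
    rw [div_lt_iff₀ hN0] at hm
    have := hC (m : ℤ)
    rw [hpos] at this
    linarith
  · by_contra hcon
    rw [not_le] at hcon
    have h2 : 0 < 2 * C ^ 2 := hN0.trans_le (hC 0)
    obtain ⟨m, hm⟩ := exists_pow_lt_of_lt_one (div_pos hN0 h2) hcon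
    rw [lt_div_iff₀ h2] at hm
    have h3 := hneg m
    have h4 := mul_le_mul_of_nonneg_left (hC (-(m : ℤ))) (pow_nonneg hρ0 m)
    linarith

lemma polar {a b : ℝ} (h : a ^ 2 + b ^ 2 = 1) : ∃ θ : ℝ, Real.cos θ = a ∧ Real.sin θ = b := by
  have h1 : ‖(⟨a, b⟩ : ℂ)‖ = 1 := by
    rw [Complex.norm_eq_sqrt_sq_add_sq]
    simp only
    rw [h, Real.sqrt_one]
  refine ⟨Complex.arg ⟨a, b⟩, ?_, ?_⟩
  · have := Complex.norm_mul_cos_arg (⟨a, b⟩ : ℂ)
    rwa [h1, one_mul] at this
  · have := Complex.norm_mul_sin_arg (⟨a, b⟩ : ℂ)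
    rwa [h1, one_mul] at this

theorem part1 {n : ℕ} (A : V n →L[ℝ] V n) (h : ¬ NoBdd (fun _ => A)) : EigOne A := by
  unfold NoBdd at h
  push Not at h
  obtain ⟨v, hv1, hv2, i, hi⟩ := h
  have hv : BS A v := ⟨hv1, hv2⟩
  set f : KK A →ₗ[ℝ] KK A := (A : V n →ₗ[ℝ] V n).restrict KK_maps with hf
  have hnt : Nontrivial (KK A) := ⟨⟨⟨v i, hv.mem i⟩, 0, fun h => hi (congrArg Subtype.val h)⟩⟩
  obtain ⟨μ, hμ⟩ : ∃ μ : ℂ, ((LinearMap.charpoly f).map (algebraMap ℝ ℂ)).IsRoot μ := by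
    refine IsAlgClosed.exists_root _ ?_
    rw [Polynomial.degree_map, Polynomial.degree_eq_natDegree (LinearMap.charpoly_monic f).ne_zero,
      LinearMap.charpoly_natDegree]
    have : 0 < Module.finrank ℝ (KK A) := Module.finrank_pos
    exact_mod_cast this.ne'
  obtain ⟨u, w, huw, hu, hw⟩ := eig_of_root f μ hμ
  have hu' : A (u : V n) = μ.re • (u : V n) - μ.im • (w : V n) := congrArg Subtype.val hu
  have hw' : A (w : V n) = μ.im • (u : V n) + μ.re • (w : V n) := congrArg Subtype.val hw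
  obtain ⟨U, hU, hU0⟩ := u.2
  obtain ⟨W, hW, hW0⟩ := w.2
  have e1 : ∀ k, U (k + 1) = μ.re • U k - μ.im • W k := by
    have h1 : BS A (fun k => U (k + 1) + ((-μ.re) • U k + μ.im • W k)) :=
      (hU.shift 1).add ((hU.smul _).add (hW.smul _))
    have h2 := h1.uniq (by
      show U (0 + 1) + ((-μ.re) • U 0 + μ.im • W 0) = 0
      rw [hU.2, hU0, hW0, hu', neg_smul]
      abel)
    intro k
    have h3 : U (k + 1) + ((-μ.re) • U k + μ.im • W k) = 0 := h2 k
    rw [neg_smul] at h3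
    rw [eq_neg_of_add_eq_zero_left h3]
    abel
  have e2 : ∀ k, W (k + 1) = μ.im • U k + μ.re • W k := by
    have h1 : BS A (fun k => W (k + 1) + ((-μ.im) • U k + (-μ.re) • W k)) :=
      (hW.shift 1).add ((hU.smul _).add (hW.smul _))
    have h2 := h1.uniq (by
      show W (0 + 1) + ((-μ.im) • U 0 + (-μ.re) • W 0) = 0
      rw [hW.2, hU0, hW0, hw', neg_smul, neg_smul]
      abel)
    intro k
    have h3 : W (k + 1) + ((-μ.im) • U k + (-μ.re) • W k) = 0 := h2 k
    rw [neg_smul, neg_smul] at h3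
    rw [eq_neg_of_add_eq_zero_left h3]
    abel
  have huw' : (u : V n) ≠ 0 ∨ (w : V n) ≠ 0 := huw.imp (fun h h' => h (Subtype.ext h'))
    (fun h h' => h (Subtype.ext h'))
  obtain ⟨C, hC⟩ := hU.1
  obtain ⟨D, hD⟩ := hW.1
  have h1 := norm_eq_one e1 e2 (C := max C D) (fun k => (hC k).trans (le_max_left _ _))
    (fun k => (hD k).trans (le_max_right _ _)) (by rw [hU0, hW0]; exact huw')
  obtain ⟨θ, hc, hs⟩ := polar h1
  refine ⟨θ, u, w, huw', ?_, ?_⟩
  · rw [hc, hs]; exact hu'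
  · rw [hc, hs]; exact hw'

theorem part2 {n : ℕ} (A : V n →L[ℝ] V n) (μ : ℂ) (hμ : ‖μ‖ = 1)
    (h : ((LinearMap.charpoly (A : V n →ₗ[ℝ] V n)).map (algebraMap ℝ ℂ)).IsRoot μ) :
    ¬ NoBdd (fun _ => A) := by
  intro hno
  obtain ⟨u, w, huw, hu, hw⟩ := eig_of_root _ μ h
  have h1 : μ.re ^ 2 + μ.im ^ 2 = 1 := by
    have := Complex.sq_norm μ
    rw [hμ, Complex.normSq_apply] at this
    linarith
  obtain ⟨θ, hc, hs⟩ := polar h1
  have hu' : A u = Real.cos θ • u - Real.sin θ • w := by rw [hc, hs]; exact hu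
  have hw' : A w = Real.sin θ • u + Real.cos θ • w := by rw [hc, hs]; exact hw
  have hcos : ∀ i : ℤ, Real.cos (((i + 1 : ℤ) : ℝ) * θ) =
      Real.cos (i * θ) * Real.cos θ - Real.sin (i * θ) * Real.sin θ := by
    intro i
    rw [← Real.cos_add]
    congr 1
    push_cast
    ring
  have hsin : ∀ i : ℤ, Real.sin (((i + 1 : ℤ) : ℝ) * θ) =
      Real.sin (i * θ) * Real.cos θ + Real.cos (i * θ) * Real.sin θ := by
    intro i
    rw [← Real.sin_add]
    congr 1
    push_cast
    ring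
  have hb : ∀ (c s : ℝ), |c| ≤ 1 → |s| ≤ 1 → ∀ x y : V n, ‖c • x + s • y‖ ≤ ‖x‖ + ‖y‖ := by
    intro c s h1 h2 x y
    refine (norm_add_le _ _).trans ?_
    rw [norm_smul, norm_smul, Real.norm_eq_abs, Real.norm_eq_abs]
    have h3 := mul_le_mul_of_nonneg_right h1 (norm_nonneg x)
    have h4 := mul_le_mul_of_nonneg_right h2 (norm_nonneg y)
    linarith
  rcases huw with h0 | h0
  · refine h0 ?_
    have h2 := hno (fun i => Real.cos (i * θ) • u + (-Real.sin (i * θ)) • w)
      ⟨‖u‖ + ‖w‖, fun i => hb _ _ (Real.abs_cos_le_one _) (by rw [abs_neg]; exact Real.abs_sin_le_one _) _ _⟩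
      (fun i => by
        simp only
        rw [hcos, hsin, map_add, map_smul, map_smul, hu', hw']
        module) 0
    simpa using h2
  · refine h0 ?_
    have h2 := hno (fun i => Real.sin (i * θ) • u + Real.cos (i * θ) • w)
      ⟨‖u‖ + ‖w‖, fun i => hb _ _ (Real.abs_sin_le_one _) (Real.abs_cos_le_one _) _ _⟩
      (fun i => by
        simp only
        rw [hcos, hsin, map_add, map_smul, map_smul, hu', hw']
        module) 0
    simpa using h2

theorem main : Pool.Agent.Y504.CO.S_EIG := by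
  intro n A
  refine ⟨part1 A, ?_⟩
  rintro ⟨μ, hμ, h⟩
  exact part2 A μ hμ h

end Pool.Agent.Y38.CO.EIG
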