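import Pool.Agent.H74.G.R_seed8.Y504.CO.Stm

/-!
General position of two subspaces by a small linear map (project CO of helper504; proof by helper38).
-/

set_option autoImplicit false

open Filter Set Metric

namespace Pool.Agent.Y38.CO.GEN

open Pool.Agent.H718R2.G

lemma gen_aux {E : Type} [NormedAddCommGroup E] [NormedSpace ℝ E] [FiniteDimensional ℝ E]
    (P Q : Submodule ℝ E)
    (h : Module.finrank ℝ P + Module.finrank ℝ Q ≤ Module.finrank ℝ E) (κ : ℝ) (hκ : 0 < κ) :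
    ∃ T : E →L[ℝ] E, ‖T‖ < κ ∧ Function.Injective (fun x => x + T x) ∧
      ∀ x ∈ P, x + T x ∈ Q → x = 0 := by
  obtain ⟨Q', hQ'⟩ := Submodule.exists_isCompl Q
  have hd := Submodule.finrank_add_eq_of_isCompl hQ'
  obtain ⟨φ, hφ⟩ := (finrank_le_iff_exists_linearMap (R := ℝ) (M := P) (M' := Q')).1
    (by omega)
  obtain ⟨S, hS⟩ := (Q'.subtype ∘ₗ φ).exists_extend
  have hSx : ∀ x : P, S x = (φ x : E) := fun x => by
    have := LinearMap.congr_fun hS x
    simpa using this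
  -- the two maps to the quotient
  set a : P →ₗ[ℝ] E ⧸ Q := Q.mkQ ∘ₗ P.subtype with ha
  set b : P →ₗ[ℝ] E ⧸ Q := Q.mkQ ∘ₗ S ∘ₗ P.subtype with hb
  have hbinj : Function.Injective b := by
    rw [injective_iff_map_eq_zero]
    intro x hx
    have h1 : Q.mkQ (S x) = 0 := hx
    rw [Submodule.mkQ_apply, Submodule.Quotient.mk_eq_zero, hSx] at h1
    have h2 : (φ x : E) ∈ Q ⊓ Q' := ⟨h1, (φ x).2⟩
    rw [hQ'.inf_eq_bot, Submodule.mem_bot] at h2
    exact hφ (by rw [map_zero]; exact Subtype.ext h2)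
  obtain ⟨R, hR⟩ := b.exists_leftInverse_of_injective (LinearMap.ker_eq_bot.2 hbinj)
  have hRb : ∀ x, R (b x) = x := fun x => LinearMap.congr_fun hR x
  -- a small parameter
  set Sc : E →L[ℝ] E := LinearMap.toContinuousLinearMap S with hSc
  have hScx : ∀ x, Sc x = S x := fun x => rfl
  obtain ⟨δ, hδ0, hδ⟩ : ∃ δ : ℝ, 0 < δ ∧ ∀ s, 0 < s → s < δ → s * ‖Sc‖ < κ ∧ s * ‖Sc‖ ≤ 1 / 2 := by
    refine ⟨min κ (1 / 2) / (‖Sc‖ + 1), by positivity, fun s hs0 hs => ?_⟩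
    rw [lt_div_iff₀ (by positivity)] at hs
    have h1 : s * ‖Sc‖ < min κ (1 / 2) := by nlinarith [norm_nonneg Sc]
    exact ⟨h1.trans_le (min_le_left _ _), h1.le.trans (min_le_right _ _)⟩
  have hfin : {s : ℝ | Module.End.HasEigenvalue (R ∘ₗ a : Module.End ℝ P) (-s)}.Finite := by
    have h1 := Module.End.finite_hasEigenvalue (R := ℝ) (M := P) (R ∘ₗ a)
    exact h1.preimage (neg_injective.injOn)
  obtain ⟨s, hs, hs'⟩ := (Set.Ioo_infinite hδ0).exists_notMem_finite hfin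
  obtain ⟨hk1, hk2⟩ := hδ s hs.1 hs.2
  have hn : ‖s • Sc‖ = s * ‖Sc‖ := by rw [norm_smul, Real.norm_eq_abs, abs_of_pos hs.1]
  refine ⟨s • Sc, by rw [hn]; exact hk1, ?_, ?_⟩
  · intro x y hxy
    have h1 : (x - y) + (s • Sc) (x - y) = 0 := by
      rw [map_sub]
      have h2 : x + (s • Sc) x = y + (s • Sc) y := hxy
      have : x - y + ((s • Sc) x - (s • Sc) y) = (x + (s • Sc) x) - (y + (s • Sc) y) := by abel
      rw [this, h2, sub_self]
    have h3 : ‖x - y‖ ≤ 1 / 2 * ‖x - y‖ := by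
      have h4 : x - y = -((s • Sc) (x - y)) := eq_neg_of_add_eq_zero_left h1
      calc ‖x - y‖ = ‖(s • Sc) (x - y)‖ := by rw [← norm_neg ((s • Sc) (x - y)), ← h4]
        _ ≤ ‖s • Sc‖ * ‖x - y‖ := (s • Sc).le_opNorm _
        _ ≤ 1 / 2 * ‖x - y‖ := by rw [hn]; exact mul_le_mul_of_nonneg_right hk2 (norm_nonneg _)
    have h5 : ‖x - y‖ ≤ 0 := by linarith
    exact sub_eq_zero.1 (norm_le_zero_iff.1 h5)
  · intro x hx hxQ
    by_contra hne
    refine hs' ?_
    have h1 : Q.mkQ (x + (s • Sc) x) = 0 := by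
      rw [Submodule.mkQ_apply, Submodule.Quotient.mk_eq_zero]
      exact hxQ
    have h2 : a ⟨x, hx⟩ + s • b ⟨x, hx⟩ = 0 := by
      have h3 : Q.mkQ (x + (s • Sc) x) = a ⟨x, hx⟩ + s • b ⟨x, hx⟩ := by
        rw [map_add]
        congr 1
      rw [← h3, h1]
    have h4 : (R ∘ₗ a) ⟨x, hx⟩ = (-s) • (⟨x, hx⟩ : P) := by
      have h5 := congrArg R h2
      rw [map_add, map_smul, map_zero, hRb] at h5
      rw [neg_smul]
      exact eq_neg_of_add_eq_zero_left h5
    exact Module.End.hasEigenvalue_of_hasEigenvector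
      (Module.End.hasEigenvector_iff.2 ⟨Module.End.mem_eigenspace_iff.2 h4, fun h0 =>
        hne (congrArg Subtype.val h0)⟩)

theorem main : Pool.Agent.Y504.CO.S_GEN := by
  intro n P Q h κ hκ
  exact gen_aux P Q (by rw [finrank_euclideanSpace_fin]; exact h) κ hκ

end Pool.Agent.Y38.CO.GEN
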